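import Pool.Agent.MP_077ac3_nt.H93.Norm

set_option autoImplicit false
set_option linter.unusedSectionVars false

/-! Vanishing of the low order Taylor coefficients of the auxiliary polynomial. -/

namespace Pool.Agent.MP_077ac3_nt.H93

open MvPolynomial Finset H18

variable {ι : Type} [Fintype ι] [DecidableEq ι] {m : ℕ}

theorem linSub_eq (M : Matrix ι ι ℝ) (P : MvPolynomial (Fin m × ι) ℤ) :
    linSub M P = aeval (fun s : Fin m × ι => ∑ j, C (M s.2 j) * X (s.1, j))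
      (map (Int.castRingHom ℝ) P) := by
  induction P using MvPolynomial.induction_on with
  | C a => simp [linSub]
  | add P Q hP hQ => simp only [map_add, hP, hQ]
  | mul_X P s hP => simp only [map_mul, hP]; simp [linSub]

theorem shift_eq (M : Matrix ι ι ℝ) (hM : M.det ≠ 0) (y : Fin m × ι → ℤ)
    (P : MvPolynomial (Fin m × ι) ℤ) :
    map (Int.castRingHom ℝ) (shift y P) =
      aeval (fun s : Fin m × ι => C (∑ k, M s.2 k * (y (s.1, k) : ℝ)) + ∑ k, C (M s.2 k) * X (s.1, k))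
        (linSub M⁻¹ P) := by
  induction P using MvPolynomial.induction_on with
  | C a => simp [linSub, shift]
  | add P Q hP hQ => simp only [map_add, hP, hQ]
  | mul_X P s hP =>
    simp only [map_mul, hP]
    congr 1
    obtain ⟨h, i⟩ := s
    have hinv : ∀ k, ∑ j, M⁻¹ i j * M j k = if i = k then 1 else 0 := by
      intro k
      have := congrFun (congrFun (Matrix.nonsing_inv_mul M (Ne.isUnit hM)) i) k
      rwa [Matrix.mul_apply, Matrix.one_apply] at this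
    have e : ∀ j, (C (∑ k, M j k * (y (h, k) : ℝ)) + ∑ k, C (M j k) * X (h, k) :
        MvPolynomial (Fin m × ι) ℝ) = ∑ k, C (M j k) * (C (y (h, k) : ℝ) + X (h, k)) := by
      intro j; simp [mul_add, sum_add_distrib]
    simp only [linSub, shift, aeval_X, map_sum, map_mul, aeval_C, algebraMap_eq, map_add, map_C,
      map_X]
    simp only [← map_mul, ← map_sum, e]
    simp only [mul_sum, ← mul_assoc, ← map_mul]
    rw [sum_comm]
    simp only [← sum_mul, ← map_sum, hinv]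
    rw [Finset.sum_eq_single i] <;> simp +contextual [eq_comm]

theorem nu_map_hom (d : Fin m → ℕ) (P : MvPolynomial (Fin m × ι) ℤ) (hP : Hom d P)
    (r : Fin m → ℝ) :
    nu (fun s : Fin m × ι => r s.1) (map (Int.castRingHom ℝ) P) = l1 P * ∏ h, r h ^ d h := by
  rw [nu_eq_of_subset _ _ (support_map_subset _ _), l1, sum_mul]
  refine sum_congr rfl fun J hJ => ?_
  rw [coeff_map, Fintype.prod_prod_type]
  simp only [prod_pow_eq_pow_sum, hP J hJ]
  rfl

theorem sum_wt_le {D Q : ℝ} {q : Fin m → ℝ} {d : Fin m → ℕ} (hd : ∀ h, 0 < d h)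
    (hq : ∀ h, d h * q h ≤ D + Q) (J : Fin m × ι →₀ ℕ) :
    ∑ s : Fin m × ι, q s.1 * J s ≤ (D + Q) * wt (fun s => 1 / (d s.1 : ℝ)) J := by
  rw [wt, Finsupp.sum_fintype _ _ (by simp), mul_sum]
  refine sum_le_sum fun s _ => ?_
  have h1 : (0 : ℝ) < d s.1 := by exact_mod_cast hd s.1
  have h2 : q s.1 ≤ (D + Q) / d s.1 := by rw [le_div_iff₀ h1, mul_comm]; exact hq s.1
  calc q s.1 * J s ≤ (D + Q) / d s.1 * J s := by gcongr
    _ = _ := by ring

theorem bal_le {D T : ℝ} {q : Fin m → ℝ} {d : Fin m → ℕ} (hd : ∀ h, 0 < d h) (hD : 0 ≤ D)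
    (hq : ∀ h, D ≤ d h * q h) (I : Fin m × ι →₀ ℕ) (i : ι)
    (hI : T ≤ ∑ h, (I (h, i) : ℝ) / d h) : D * T ≤ ∑ h, q h * I (h, i) := by
  refine (mul_le_mul_of_nonneg_left hI hD).trans ?_
  rw [mul_sum]
  refine sum_le_sum fun h _ => ?_
  have h1 : (0 : ℝ) < d h := by exact_mod_cast hd h
  have h2 : D / d h ≤ q h := by rw [div_le_iff₀ h1, mul_comm]; exact hq h
  calc D * ((I (h, i) : ℝ) / d h) = D / d h * I (h, i) := by ring
    _ ≤ _ := by gcongr

theorem upper (M : Matrix ι ι ℝ) (hM : M.det ≠ 0) (c : ι → ℝ) (A B D Q T W : ℝ)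
    (hA : ∀ i, |c i| ≤ A) (hA0 : 0 ≤ A) (hB : 0 ≤ B) (q : Fin m → ℝ) (hq0 : ∀ h, 0 ≤ q h)
    (d : Fin m → ℕ) (hd : ∀ h, 0 < d h) (hD : 0 ≤ D) (hQ : 0 ≤ Q) (hq1 : ∀ h, D ≤ d h * q h)
    (hq2 : ∀ h, d h * q h ≤ D + Q) (P : MvPolynomial (Fin m × ι) ℤ) (hP : Hom d P)
    (hbal : ∀ I ∈ (linSub M⁻¹ P).support, ∀ i, T ≤ ∑ h, (I (h, i) : ℝ) / d h)
    (y : Fin m × ι → ℤ) (hy : ∀ h i, |∑ j, M i j * (y (h, j) : ℝ)| ≤ B * Real.exp (c i * q h))
    (J : Fin m × ι →₀ ℕ) (hJ : wt (fun s => 1 / (d s.1 : ℝ)) J ≤ W) :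
    |((coeff J (shift y P) : ℤ) : ℝ)| ≤
      l1 P * ((∑ i, ∑ j, |M⁻¹ i j|) * (B + ∑ i, ∑ j, |M i j|)) ^ (∑ h, d h) *
        Real.exp (A * ∑ h, d h * q h + D * T * ∑ i, (c i - A) + A * ((D + Q) * W)) := by
  set K1 := ∑ i, ∑ j, |M i j| with hK1
  set K2 := ∑ i, ∑ j, |M⁻¹ i j| with hK2
  have row : ∀ (N : Matrix ι ι ℝ) i, ∑ j, |N i j| ≤ ∑ i, ∑ j, |N i j| := fun N i =>
    single_le_sum (f := fun i => ∑ j, |N i j|) (fun _ _ => by positivity) (mem_univ i)
  have hK10 : 0 ≤ K1 := by positivity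
  have hK20 : 0 ≤ K2 := by positivity
  let ρ : Fin m × ι → ℝ := fun s => Real.exp (-A * q s.1)
  let ρ' : Fin m × ι → ℝ := fun s => (B + K1) * Real.exp (A * q s.1)
  let β : Fin m × ι → ℝ := fun s => (B + K1) * Real.exp (c s.2 * q s.1)
  have hρ : ∀ s, 0 ≤ ρ s := fun s => by positivity
  have hρ' : ∀ s, 0 ≤ ρ' s := fun s => by positivity
  have h1 := coeff_le_nu hρ (map (Int.castRingHom ℝ) (shift y P)) J
  rw [coeff_map, shift_eq M hM] at h1
  have h2 := nu_aeval hρ (fun s : Fin m × ι => C (∑ k, M s.2 k * (y (s.1, k) : ℝ)) +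
      ∑ k, C (M s.2 k) * X (s.1, k)) β (fun s => by
    refine (nu_add hρ _ _).trans ?_
    rw [nu_C]
    have a1 := hy s.1 s.2
    have a2 := nu_lin hρ (fun k => M s.2 k) (fun k => (s.1, k))
    have a3 : ∑ k, |M s.2 k| * ρ (s.1, k) ≤ K1 * Real.exp (c s.2 * q s.1) := by
      simp only [ρ, ← sum_mul]
      have : -A ≤ c s.2 := (abs_le.1 (hA s.2)).1
      have := hq0 s.1
      gcongr
      exact row M s.2
    simp only [β]; linarith) (linSub M⁻¹ P)
  have h3 : nu β (linSub M⁻¹ P) ≤ nu ρ' (linSub M⁻¹ P) * Real.exp (D * T * ∑ i, (c i - A)) := by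
    rw [nu, nu, sum_mul]
    refine sum_le_sum fun I hI => ?_
    rw [mul_assoc]
    refine mul_le_mul_of_nonneg_left ?_ (abs_nonneg _)
    have e : ∏ s, β s ^ I s = (∏ s, ρ' s ^ I s) *
        Real.exp (∑ s : Fin m × ι, (c s.2 - A) * (q s.1 * I s)) := by
      rw [Real.exp_sum, ← prod_mul_distrib]
      refine prod_congr rfl fun s _ => ?_
      simp only [β, ρ', mul_pow, ← Real.exp_nat_mul, mul_assoc, ← Real.exp_add]
      congr 2; ring
    rw [e]
    refine mul_le_mul_of_nonneg_left (Real.exp_le_exp.2 ?_) (prod_nonneg fun s _ => by positivity)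
    rw [Fintype.sum_prod_type_right, mul_sum]
    refine sum_le_sum fun i _ => ?_
    simp only [← mul_sum]
    have b1 := bal_le hd hD hq1 I i (hbal I hI i)
    have b2 : c i - A ≤ 0 := by linarith [(abs_le.1 (hA i)).2]
    nlinarith
  have h4 : nu ρ' (linSub M⁻¹ P) ≤
      l1 P * (K2 * (B + K1)) ^ (∑ h, d h) * Real.exp (A * ∑ h, d h * q h) := by
    rw [linSub_eq]
    refine (nu_aeval hρ' _ (fun s : Fin m × ι => K2 * ((B + K1) * Real.exp (A * q s.1)))
      (fun s => (nu_lin hρ' (fun k => M⁻¹ s.2 k) (fun k => (s.1, k))).trans ?_) _).trans ?_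
    · simp only [ρ', ← sum_mul]
      gcongr
      exact row M⁻¹ s.2
    · rw [nu_map_hom d P hP (fun h => K2 * ((B + K1) * Real.exp (A * q h))), mul_assoc,
        ← prod_pow_eq_pow_sum, mul_sum, Real.exp_sum, ← prod_mul_distrib]
      refine le_of_eq (congrArg _ (prod_congr rfl fun h _ => ?_))
      rw [← mul_assoc, mul_pow, ← Real.exp_nat_mul]
      congr 2; ring
  have h5 : 1 ≤ (∏ s, ρ s ^ J s) * Real.exp (A * ((D + Q) * W)) := by
    have e : ∏ s, ρ s ^ J s = Real.exp (-A * ∑ s : Fin m × ι, q s.1 * J s) := by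
      rw [mul_sum, Real.exp_sum]
      refine prod_congr rfl fun s _ => ?_
      simp only [ρ, ← Real.exp_nat_mul]
      congr 1; ring
    rw [e, ← Real.exp_add]
    refine Real.one_le_exp ?_
    have b1 := sum_wt_le hd hq2 J
    have b2 : (D + Q) * wt (fun s : Fin m × ι => 1 / (d s.1 : ℝ)) J ≤ (D + Q) * W := by gcongr
    nlinarith
  have h6 : |((coeff J (shift y P) : ℤ) : ℝ)| * ∏ s, ρ s ^ J s ≤
      l1 P * (K2 * (B + K1)) ^ (∑ h, d h) * Real.exp (A * ∑ h, d h * q h) *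
        Real.exp (D * T * ∑ i, (c i - A)) :=
    h1.trans (h2.trans (h3.trans (by gcongr)))
  calc _ ≤ |((coeff J (shift y P) : ℤ) : ℝ)| *
        ((∏ s, ρ s ^ J s) * Real.exp (A * ((D + Q) * W))) :=
        le_mul_of_one_le_right (abs_nonneg _) h5
    _ ≤ l1 P * (K2 * (B + K1)) ^ (∑ h, d h) * Real.exp (A * ∑ h, d h * q h) *
        Real.exp (D * T * ∑ i, (c i - A)) * Real.exp (A * ((D + Q) * W)) := by
        rw [← mul_assoc]; gcongr
    _ = _ := by rw [Real.exp_add, Real.exp_add]; ring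

theorem prod_dv {S : Type} [Fintype S] (g : S → ℕ) (e : ι → S → ℝ) (q : Fin m → ℝ)
    (I : Fin m × ι →₀ ℕ) :
    ∏ s : Fin m × ι, dv g e (q s.1) s.2 ^ I s =
      ∏ t, (g t : ℤ) ^ (∑ s : Fin m × ι, ⌈e s.2 t * q s.1⌉₊ * I s) := by
  simp only [dv, ← prod_pow, ← pow_mul, ← prod_pow_eq_pow_sum]
  exact prod_comm

theorem lower {S : Type} [Fintype S] (g : S → ℕ) (e : ι → S → ℝ) (hg : ∀ t, 0 < g t)
    (he : ∀ i t, 0 ≤ e i t) (D Q T W : ℝ) (q : Fin m → ℝ) (hq0 : ∀ h, 1 ≤ q h)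
    (d : Fin m → ℕ) (hd : ∀ h, 0 < d h) (hD : 0 ≤ D) (hQ : 0 ≤ Q) (hq1 : ∀ h, D ≤ d h * q h)
    (hq2 : ∀ h, d h * q h ≤ D + Q) (P : MvPolynomial (Fin m × ι) ℤ)
    (hbal : ∀ I ∈ P.support, ∀ i, T ≤ ∑ h, (I (h, i) : ℝ) / d h)
    (y : Fin m × ι → ℤ) (hy : ∀ h i, dv g e (q h) i ∣ y (h, i))
    (J : Fin m × ι →₀ ℕ) (hJ : wt (fun s => 1 / (d s.1 : ℝ)) J ≤ W)
    (ha : coeff J (shift y P) ≠ 0) :
    Real.exp (D * T * ∑ i, ∑ t, e i t * Real.log (g t) -
      (∑ i, ∑ t, (e i t + 1) * Real.log (g t)) * ((D + Q) * W)) ≤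
      |((coeff J (shift y P) : ℤ) : ℝ)| := by
  have hg1 : ∀ t, (0 : ℝ) < g t := fun t => by exact_mod_cast hg t
  have hL : ∀ t, 0 ≤ Real.log (g t) := fun t => Real.log_natCast_nonneg _
  have hpow : ∀ n : S → ℕ, ((∏ t, (g t : ℤ) ^ n t : ℤ) : ℝ) =
      Real.exp (∑ t, n t * Real.log (g t)) := by
    intro n
    rw [Real.exp_sum]; push_cast
    refine prod_congr rfl fun t _ => ?_
    rw [Real.exp_nat_mul, Real.exp_log (hg1 t)]
  have h1 := dvd_coeff_shift y (fun s => dv g e (q s.1) s.2) (fun s => hy s.1 s.2) P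
    (∏ t, (g t : ℤ) ^ ⌈D * T * ∑ i, e i t⌉₊) (fun I hI => by
      rw [prod_dv]
      refine prod_dvd_prod_of_dvd _ _ fun t _ => pow_dvd_pow _ (Nat.ceil_le.2 ?_)
      push_cast
      rw [Fintype.sum_prod_type_right, mul_sum]
      refine sum_le_sum fun i _ => ?_
      have b1 := bal_le hd hD hq1 I i (hbal I hI i)
      calc D * T * e i t ≤ (∑ h, q h * I (h, i)) * e i t := mul_le_mul_of_nonneg_right b1 (he i t)
        _ = ∑ h, e i t * q h * I (h, i) := by
          rw [sum_mul]; exact sum_congr rfl fun h _ => by ring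
        _ ≤ _ := sum_le_sum fun h _ => mul_le_mul_of_nonneg_right (Nat.le_ceil _) (by positivity)) J
  rw [prod_dv] at h1
  have hpos : (0 : ℤ) < ∏ t, (g t : ℤ) ^ (∑ s : Fin m × ι, ⌈e s.2 t * q s.1⌉₊ * J s) :=
    prod_pos fun t _ => pow_pos (by exact_mod_cast hg t) _
  have h2 := Int.le_of_dvd (abs_pos.2 (mul_ne_zero ha hpos.ne')) ((dvd_abs _ _).2 h1)
  rw [abs_mul, abs_of_pos hpos] at h2
  have h3 := (Int.cast_le (R := ℝ)).2 h2
  rw [Int.cast_mul, hpow, hpow, Int.cast_abs] at h3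
  rw [Real.exp_sub, div_le_iff₀ (Real.exp_pos _)]
  refine le_trans (Real.exp_le_exp.2 ?_) (h3.trans (mul_le_mul_of_nonneg_left
    (Real.exp_le_exp.2 ?_) (abs_nonneg _)))
  · rw [sum_comm, mul_sum]
    refine sum_le_sum fun t _ => ?_
    rw [← sum_mul, ← mul_assoc]
    exact mul_le_mul_of_nonneg_right (Nat.le_ceil _) (hL t)
  · set K3 := ∑ i, ∑ t, (e i t + 1) * Real.log (g t) with hK3
    have hK : ∀ i, ∑ t, (e i t + 1) * Real.log (g t) ≤ K3 := fun i =>
      single_le_sum (f := fun i => ∑ t, (e i t + 1) * Real.log (g t))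
        (fun i _ => sum_nonneg fun t _ => mul_nonneg (by linarith [he i t]) (hL t)) (mem_univ i)
    have hK0 : 0 ≤ K3 :=
      sum_nonneg fun i _ => sum_nonneg fun t _ => mul_nonneg (by linarith [he i t]) (hL t)
    have b1 := sum_wt_le hd hq2 J
    have b2 : (D + Q) * wt (fun s : Fin m × ι => 1 / (d s.1 : ℝ)) J ≤ (D + Q) * W := by gcongr
    refine le_trans ?_ (mul_le_mul_of_nonneg_left (b1.trans b2) hK0)
    push_cast
    simp only [sum_mul]
    rw [sum_comm, mul_sum]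
    refine sum_le_sum fun s _ => ?_
    have hq := hq0 s.1
    refine le_trans ?_ (mul_le_mul_of_nonneg_right (hK s.2) (by positivity))
    rw [sum_mul]
    refine sum_le_sum fun t _ => ?_
    have b3 : (⌈e s.2 t * q s.1⌉₊ : ℝ) ≤ (e s.2 t + 1) * q s.1 := by
      have := (Nat.ceil_lt_add_one (mul_nonneg (he s.2 t) (by linarith : 0 ≤ q s.1))).le
      linarith
    have := hL t
    calc (⌈e s.2 t * q s.1⌉₊ : ℝ) * J s * Real.log (g t)
        ≤ (e s.2 t + 1) * q s.1 * J s * Real.log (g t) := by gcongr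
      _ = _ := by ring

theorem vanish : VanishStmt := by
  intro ι S _ _ _ _ M g c e hM hg he hδ
  set Λ := ∑ i, ∑ s, e i s * Real.log (g s) with hΛ
  set δ := Λ - ∑ i, c i with hδdef
  have hδ0 : 0 < δ := by linarith
  set A := ∑ i, |c i| with hA
  have hA0 : 0 ≤ A := by positivity
  have hA1 : ∀ i, |c i| ≤ A := fun i =>
    single_le_sum (f := fun i => |c i|) (fun _ _ => abs_nonneg _) (mem_univ i)
  set K3 := ∑ i, ∑ t, (e i t + 1) * Real.log (g t) with hK3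
  have hK30 : 0 ≤ K3 := sum_nonneg fun i _ => sum_nonneg fun t _ =>
    mul_nonneg (by linarith [he i t]) (Real.log_natCast_nonneg _)
  set N : ℝ := (Fintype.card ι : ℝ) with hN
  have hN0 : 0 < N := by rw [hN]; exact_mod_cast Fintype.card_pos
  set η := δ / N with hη
  have hη0 : 0 < η := by positivity
  set ε := η / 2 / (δ + N * A + A + K3) with hε
  have hε0 : 0 < ε := by positivity
  have hε1 : ε * (δ + N * A + A + K3) = η / 2 := by rw [hε]; field_simp
  refine ⟨ε, hε0, fun m K B hm hK hB => ?_⟩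
  set F := K * ((∑ i, ∑ j, |M⁻¹ i j|) * (B + ∑ i, ∑ j, |M i j|)) with hF
  have hF0 : 0 ≤ F := by positivity
  refine ⟨1 + 4 * F / η, fun q hq => ?_⟩
  have hq0 : 0 ≤ 4 * F / η := by positivity
  have hq1 : ∀ h, 1 ≤ q h := fun h => by linarith [hq h]
  set Q := ∑ h, q h with hQ
  have hQ1 : ∀ h, q h ≤ Q := fun h =>
    single_le_sum (f := q) (fun h _ => by linarith [hq1 h]) (mem_univ h)
  have hQ0 : 0 ≤ Q := sum_nonneg fun h _ => by linarith [hq1 h]
  set R := m * F + A * Q + (A + K3) * (Q * (m * ε)) with hR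
  have hR0 : 0 ≤ R := by positivity
  refine ⟨(R + 1) * 4 / η, fun D hD d hd P hP hl hb1 hb2 y hy1 hy2 J hJ => ?_⟩
  by_contra ha
  have hD0 : 0 < D := lt_of_lt_of_le (by positivity) hD
  have hd0 : ∀ h, 0 < d h := fun h => by
    by_contra h0
    have : d h = 0 := by omega
    have h1 := (hd h).1
    rw [this] at h1; simp at h1; linarith
  have hq2 : ∀ h, d h * q h ≤ D + Q := fun h => by linarith [(hd h).2, hQ1 h]
  have hu := upper M hM c A B D Q (m * (1 / N - ε)) (m * ε) hA1 hA0 (by linarith) q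
    (fun h => by linarith [hq1 h]) d hd0 hD0.le hQ0 (fun h => (hd h).1) hq2 P hP hb2 y hy1 J hJ
  have hlow := lower g e hg he D Q (m * (1 / N - ε)) (m * ε) q hq1 d hd0 hD0.le hQ0
    (fun h => (hd h).1) hq2 P hb1 y hy2 J hJ ha
  have h1 : l1 P * ((∑ i, ∑ j, |M⁻¹ i j|) * (B + ∑ i, ∑ j, |M i j|)) ^ (∑ h, d h) ≤
      Real.exp ((∑ h, d h : ℕ) * F) := by
    calc _ ≤ K ^ (∑ h, d h) * ((∑ i, ∑ j, |M⁻¹ i j|) * (B + ∑ i, ∑ j, |M i j|)) ^ (∑ h, d h) := by
          gcongr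
      _ = F ^ (∑ h, d h) := by rw [hF, mul_pow K]
      _ ≤ Real.exp F ^ (∑ h, d h) := by
          gcongr; linarith [Real.add_one_le_exp F]
      _ = _ := by rw [Real.exp_nat_mul]
  have h2 := hlow.trans (hu.trans (mul_le_mul_of_nonneg_right h1 (Real.exp_pos _).le))
  rw [← Real.exp_add, Real.exp_le_exp, sum_sub_distrib, sum_const, card_univ, nsmul_eq_mul,
    ← hN, ← hΛ, ← hK3] at h2
  have h3 : ∑ h, (d h : ℝ) * q h ≤ m * D + Q := by
    calc _ ≤ ∑ h, (D + q h) := sum_le_sum fun h _ => (hd h).2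
      _ = _ := by rw [sum_add_distrib, sum_const, card_univ, Fintype.card_fin, nsmul_eq_mul]
  have h4 : ((∑ h, d h : ℕ) : ℝ) * F ≤ m * (D * η / 4 + F) := by
    push_cast
    rw [sum_mul]
    calc _ ≤ ∑ _h : Fin m, (D * η / 4 + F) := sum_le_sum fun h _ => ?_
      _ = _ := by rw [sum_const, card_univ, Fintype.card_fin, nsmul_eq_mul]
    have a1 := (hd h).2
    have a2 := hq1 h
    have a3 : 4 * F ≤ η * q h := by
      have : 4 * F / η ≤ q h := by linarith [hq h]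
      rwa [div_le_iff₀ hη0, mul_comm (q h)] at this
    have a4 : ((d h : ℝ) - 1) * q h ≤ D := by linarith
    have a5 : (0 : ℝ) ≤ (d h : ℝ) - 1 := by
      have : (1 : ℝ) ≤ d h := by exact_mod_cast hd0 h
      linarith
    have a6 : ((d h : ℝ) - 1) * (4 * F) ≤ ((d h : ℝ) - 1) * (η * q h) := by gcongr
    have a7 : η * (((d h : ℝ) - 1) * q h) ≤ η * D := by gcongr
    nlinarith
  have h5 : R + 1 ≤ D * η / 4 := by
    rw [div_le_iff₀ hη0] at hD; linarith
  have hm1 : (1 : ℝ) ≤ m := by exact_mod_cast hm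
  have h6 : D * η / 4 ≤ m * (D * η / 4) := le_mul_of_one_le_left (by positivity) hm1
  have h7 : A * ∑ h, (d h : ℝ) * q h ≤ A * (m * D + Q) := by gcongr
  have e1 : (1 / N) * δ = η := by rw [hη]; field_simp
  have e2 : (1 / N) * (N * A) = A := by field_simp
  have e3 : Λ = δ + ∑ i, c i := by rw [hδdef]; ring
  rw [e3] at h2
  have e4 : D * (m * (1 / N - ε)) * (δ + ∑ i, c i) - D * (m * (1 / N - ε)) * (∑ i, c i - N * A) =
      D * m * (η + A - ε * (δ + N * A)) := by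
    rw [← e1]; nth_rewrite 2 [← e2]; ring
  have e5 : D * m * (η + A - ε * (δ + N * A)) = D * m * (η / 2 + A + ε * (A + K3)) := by
    congr 1; linarith
  nlinarith

end Pool.Agent.MP_077ac3_nt.H93
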