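import Pool.Agent.MP_077ac3_nt.H18.Defs

set_option autoImplicit false
set_option linter.unusedSectionVars false

/-! Weighted `ℓ¹` norms of real polynomials. -/

namespace Pool.Agent.MP_077ac3_nt.H93

open MvPolynomial Finset

variable {σ τ : Type} [Fintype σ] [DecidableEq σ] [Fintype τ] [DecidableEq τ]

/-- weighted `ℓ¹` norm. -/
noncomputable def nu (ρ : σ → ℝ) (P : MvPolynomial σ ℝ) : ℝ :=
  ∑ J ∈ P.support, |coeff J P| * ∏ s, ρ s ^ J s

theorem nu_eq_of_subset (ρ : σ → ℝ) (P : MvPolynomial σ ℝ) {T : Finset (σ →₀ ℕ)}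
    (hT : P.support ⊆ T) : nu ρ P = ∑ J ∈ T, |coeff J P| * ∏ s, ρ s ^ J s := by
  refine Finset.sum_subset hT fun J _ hJ => ?_
  rw [notMem_support_iff.1 hJ]; simp

variable {ρ : σ → ℝ}

theorem nu_nonneg (hρ : ∀ s, 0 ≤ ρ s) (P : MvPolynomial σ ℝ) : 0 ≤ nu ρ P :=
  sum_nonneg fun _ _ => mul_nonneg (abs_nonneg _) (prod_nonneg fun s _ => pow_nonneg (hρ s) _)

theorem coeff_le_nu (hρ : ∀ s, 0 ≤ ρ s) (P : MvPolynomial σ ℝ) (J : σ →₀ ℕ) :
    |coeff J P| * ∏ s, ρ s ^ J s ≤ nu ρ P := by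
  by_cases h : J ∈ P.support
  · exact single_le_sum (f := fun J => |coeff J P| * ∏ s, ρ s ^ J s)
      (fun _ _ => mul_nonneg (abs_nonneg _) (prod_nonneg fun s _ => pow_nonneg (hρ s) _)) h
  · rw [notMem_support_iff.1 h]; simpa using nu_nonneg hρ P

theorem nu_add (hρ : ∀ s, 0 ≤ ρ s) (P Q : MvPolynomial σ ℝ) : nu ρ (P + Q) ≤ nu ρ P + nu ρ Q := by
  rw [nu_eq_of_subset ρ (P + Q) support_add, nu_eq_of_subset ρ P (T := P.support ∪ Q.support)
    subset_union_left, nu_eq_of_subset ρ Q (T := P.support ∪ Q.support) subset_union_right,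
    ← sum_add_distrib]
  refine sum_le_sum fun J _ => ?_
  rw [← add_mul, coeff_add]
  exact mul_le_mul_of_nonneg_right (abs_add_le _ _) (prod_nonneg fun s _ => pow_nonneg (hρ s) _)

theorem nu_sum (hρ : ∀ s, 0 ≤ ρ s) {α : Type} (T : Finset α) (f : α → MvPolynomial σ ℝ) :
    nu ρ (∑ a ∈ T, f a) ≤ ∑ a ∈ T, nu ρ (f a) := by
  classical
  induction T using Finset.induction_on with
  | empty => simp [nu]
  | insert a T ha ih =>
    rw [sum_insert ha, sum_insert ha]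
    exact (nu_add hρ _ _).trans (by linarith)

theorem nu_monomial (J : σ →₀ ℕ) (a : ℝ) : nu ρ (monomial J a) = |a| * ∏ s, ρ s ^ J s := by
  rw [nu_eq_of_subset ρ _ support_monomial_subset]; simp

theorem nu_C (a : ℝ) : nu ρ (C a) = |a| := by
  rw [C_apply, nu_monomial]; simp

theorem nu_X (s : σ) : nu ρ (X s) = ρ s := by
  rw [X, nu_monomial, Finset.prod_eq_single s] <;> simp +contextual [eq_comm]

theorem nu_mul (hρ : ∀ s, 0 ≤ ρ s) (P Q : MvPolynomial σ ℝ) : nu ρ (P * Q) ≤ nu ρ P * nu ρ Q := by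
  conv_lhs => rw [P.as_sum, Q.as_sum, sum_mul_sum]
  refine (nu_sum hρ _ _).trans ?_
  rw [nu, nu, sum_mul_sum]
  refine sum_le_sum fun I _ => (nu_sum hρ _ _).trans (le_of_eq (sum_congr rfl fun J _ => ?_))
  rw [monomial_mul, nu_monomial, abs_mul]
  simp only [Finsupp.add_apply, pow_add, prod_mul_distrib]
  ring

theorem nu_pow (hρ : ∀ s, 0 ≤ ρ s) (P : MvPolynomial σ ℝ) (k : ℕ) : nu ρ (P ^ k) ≤ nu ρ P ^ k := by
  induction k with
  | zero => rw [pow_zero, pow_zero, ← C_1, nu_C, abs_one]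
  | succ k ih =>
    rw [pow_succ, pow_succ]
    exact (nu_mul hρ _ _).trans (mul_le_mul_of_nonneg_right ih (nu_nonneg hρ _))

theorem nu_prod (hρ : ∀ s, 0 ≤ ρ s) {α : Type} (T : Finset α) (f : α → MvPolynomial σ ℝ) :
    nu ρ (∏ a ∈ T, f a) ≤ ∏ a ∈ T, nu ρ (f a) := by
  classical
  induction T using Finset.induction_on with
  | empty => rw [prod_empty, prod_empty, ← C_1, nu_C, abs_one]
  | insert a T ha ih =>
    rw [prod_insert ha, prod_insert ha]
    exact (nu_mul hρ _ _).trans (mul_le_mul_of_nonneg_left ih (nu_nonneg hρ _))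

theorem nu_aeval (hρ : ∀ s, 0 ≤ ρ s) (φ : τ → MvPolynomial σ ℝ) (β : τ → ℝ)
    (hβ : ∀ t, nu ρ (φ t) ≤ β t) (P : MvPolynomial τ ℝ) : nu ρ (aeval φ P) ≤ nu β P := by
  rw [aeval_def, eval₂_eq']
  refine (nu_sum hρ _ _).trans (sum_le_sum fun I _ => (nu_mul hρ _ _).trans ?_)
  rw [algebraMap_eq, nu_C]
  refine mul_le_mul_of_nonneg_left ((nu_prod hρ _ _).trans (prod_le_prod
    (fun t _ => nu_nonneg hρ _) fun t _ => (nu_pow hρ _ _).trans ?_)) (abs_nonneg _)
  exact pow_le_pow_left₀ (nu_nonneg hρ _) (hβ t) _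

theorem nu_lin (hρ : ∀ s, 0 ≤ ρ s) {α : Type} [Fintype α] (a : α → ℝ) (f : α → σ) :
    nu ρ (∑ j, C (a j) * X (f j)) ≤ ∑ j, |a j| * ρ (f j) :=
  (nu_sum hρ _ _).trans (sum_le_sum fun j _ => (nu_mul hρ _ _).trans (by rw [nu_C, nu_X]))

theorem coeff_scale {R : Type} [CommRing R] (t : σ → R) (Q : MvPolynomial σ R) (J : σ →₀ ℕ) :
    coeff J (aeval (fun s => C (t s) * X s) Q) = coeff J Q * ∏ s, t s ^ J s := by
  induction Q using MvPolynomial.induction_on' with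
  | monomial I a =>
    have : aeval (fun s => C (t s) * X s) (monomial I a) = monomial I (a * ∏ s, t s ^ I s) := by
      rw [aeval_monomial, Finsupp.prod_fintype _ _ (by simp), monomial_eq,
        Finsupp.prod_fintype _ _ (by simp)]
      simp only [mul_pow, prod_mul_distrib, algebraMap_eq, map_mul, map_prod, map_pow, mul_assoc]
    rw [this, coeff_monomial, coeff_monomial]
    split_ifs with h
    · rw [h]
    · simp
  | add P Q hP hQ => rw [map_add, coeff_add, coeff_add, hP, hQ, add_mul]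

theorem dvd_coeff_shift (y t : σ → ℤ) (hy : ∀ s, t s ∣ y s) (P : MvPolynomial σ ℤ) (G : ℤ)
    (hG : ∀ I ∈ P.support, G ∣ ∏ s, t s ^ I s) (J : σ →₀ ℕ) :
    G ∣ coeff J (H18.shift y P) * ∏ s, t s ^ J s := by
  choose z hz using hy
  rw [← coeff_scale]
  have h1 : aeval (fun s => C (t s) * X s) (H18.shift y P) =
      aeval (fun s => C (t s) * (C (z s) + X s)) P := by
    rw [H18.shift, ← AlgHom.comp_apply, comp_aeval]
    congr 2
    funext s
    simp [hz s, mul_add]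
  rw [h1]
  refine (C_dvd_iff_dvd_coeff G _).1 ?_ J
  rw [aeval_def, eval₂_eq']
  refine dvd_sum fun I hI => Dvd.dvd.mul_left ?_ _
  simp only [mul_pow, prod_mul_distrib]
  refine Dvd.dvd.mul_right ?_ _
  have := map_dvd (C : ℤ →+* MvPolynomial σ ℤ) (hG I hI)
  simpa only [map_prod, map_pow] using this

end Pool.Agent.MP_077ac3_nt.H93
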